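import Pool.Agent.Lib.lead.CXRat

set_option autoImplicit false

namespace Pool.Agent.H.MP_31f6f1_lc

/-- the edges of the round trip visiting the entries of `L` in cyclic order -/
def ed {α : Type} (L : List α) : List (α × α) := L.zip (L.rotate 1)

/-- two edge-disjoint round trips through `0, …, n-1` -/
def Feas (n : ℕ) (L M : List ℕ) : Prop :=
  L.Perm (List.range n) ∧ M.Perm (List.range n) ∧ ∀ e ∈ ed L, e ∉ ed M ∧ e.swap ∉ ed M

/-- length of a round trip -/
def len (d : ℕ → ℕ → ℝ) (L : List ℕ) : ℝ := ((ed L).map fun e => d e.1 e.2).sum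

/-- the point number `v` of the input -/
def pt (s : ℕ) (P : List (List ℚ)) (v : ℕ) : Fin s → ℝ := fun k => ((P.getD v []).getD k 0 : ℚ)

end Pool.Agent.H.MP_31f6f1_lc
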