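import Mathlib

set_option autoImplicit false

namespace Pool.Agent.H.MP_31f6f1_lc

open Set Topology Filter

lemma poly {s : ℕ} (V : Finset (Fin s → ℚ)) {B : Set (Fin s → ℝ)}
    (hB : B = convexHull ℝ ((fun (v : Fin s → ℚ) k => (v k : ℝ)) '' V)) (h : 0 ∈ interior B) :
    ∃ A : Finset (Fin s → ℚ), ∀ x, (∀ a ∈ A, ∑ k, (a k : ℝ) * x k ≤ gauge B x) ∧
      ∃ a ∈ A, gauge B x ≤ ∑ k, (a k : ℝ) * x k := by
  classical
  have hn : B ∈ 𝓝 0 := mem_interior_iff_mem_nhds.1 h
  have ab : Absorbent ℝ B := absorbent_nhds_zero hn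
  have cv : Convex ℝ B := hB ▸ convex_convexHull _ _
  let Pol : Set (Fin s → ℝ) := {a | ∀ v ∈ V, ∑ k, a k * v k ≤ 1}
  have p0 (a) (ha : a ∈ Pol) (y) (hy : y ∈ B) : ∑ k, a k * y k ≤ 1 := by
    refine convexHull_min (t := {y | a ⬝ᵥ y ≤ 1}) ?_ ?_ (hB ▸ hy)
    · rintro _ ⟨v, i, rfl⟩; exact ha v i
    · exact convex_halfSpace_le (IsLinearMap.mk (dotProduct_add a) fun c y => dotProduct_smul c a y) 1
  have p1 (a) (ha : a ∈ Pol) (x) : ∑ k, a k * x k ≤ gauge B x := by
    refine le_csInf ab.gauge_set_nonempty ?_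
    rintro r ⟨i, y, j, rfl⟩
    have := mul_le_mul_of_nonneg_left (p0 a ha y j) i.le
    simpa only [Finset.mul_sum, mul_left_comm r, mul_one, Pi.smul_apply, smul_eq_mul] using this
  have cl : IsClosed Pol := by
    simp only [Pol, ofPred_forall]
    exact isClosed_iInter fun v => isClosed_iInter fun _ => isClosed_le (by fun_prop) (by fun_prop)
  have cp : IsCompact Pol := by
    refine (isCompact_Icc (a := fun k => -gauge B (-Pi.single k 1))
      (b := fun k => gauge B (Pi.single k 1))).of_isClosed_subset cl fun a ha => ⟨fun k => ?_, fun k => ?_⟩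
    · have := p1 a ha (-Pi.single k 1)
      simp [Pi.single_apply] at this
      linarith
    · simpa [Pi.single_apply] using p1 a ha (Pi.single k 1)
  have p3 (x) : ∃ a ∈ Pol, gauge B x ≤ ∑ k, a k * x k := by
    by_cases hx : x = 0
    · exact ⟨0, by simp [Pol], by simp [hx]⟩
    obtain ⟨g, i, j⟩ := exists_extension_of_le_sublinear (LinearPMap.mkSpanSingleton x (gauge B x) hx)
      (gauge B) (fun c hc => gauge_smul_of_nonneg hc.le) (gauge_add_le cv ab) (by
        rintro ⟨y, hy⟩
        obtain ⟨c, rfl⟩ := Submodule.mem_span_singleton.1 hy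
        rw [LinearPMap.mkSpanSingleton'_apply]
        rcases le_total 0 c with k | k
        · exact (gauge_smul_of_nonneg k x).ge
        · exact (mul_nonpos_of_nonpos_of_nonneg k (gauge_nonneg _)).trans (gauge_nonneg _))
    have e (y) : ∑ k, g (Pi.single k 1) * y k = g y := by
      rw [g.pi_apply_eq_sum_univ y]
      refine Finset.sum_congr rfl fun k _ => ?_
      rw [mul_comm, smul_eq_mul]
      congr 2
      ext; simp [Pi.single_apply, eq_comm]
    refine ⟨fun k => g (Pi.single k 1), fun v k => ?_, ?_⟩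
    · exact (e fun k => v k).trans_le ((j _).trans
        (gauge_le_one_of_mem (hB ▸ subset_convexHull _ _ ⟨v, k, rfl⟩)))
    · rw [e, i ⟨x, Submodule.mem_span_singleton_self x⟩, LinearPMap.mkSpanSingleton_apply]
  have p4 (a) (ha : a ∈ Pol.extremePoints ℝ) (b : Fin s → ℝ)
      (hb : ∀ v ∈ V, ∑ k, a k * v k = 1 → ∑ k, b k * v k = 1) : b = a := by
    have : ∀ᶠ t in 𝓝 (0 : ℝ), a + t • (b - a) ∈ Pol := by
      refine (eventually_all_finset V).2 fun v i => ?_
      have e (t : ℝ) : ∑ k, (a + t • (b - a)) k * v k =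
          ∑ k, a k * v k + t * (∑ k, b k * v k - ∑ k, a k * v k) := by
        simp only [Finset.mul_sum, ← Finset.sum_sub_distrib, ← Finset.sum_add_distrib]
        exact Finset.sum_congr rfl fun k _ => by simp; ring
      simp only [e]
      rcases (ha.1 v i).eq_or_lt with j | j
      · simp [j, hb v i j]
      · exact (ContinuousAt.eventually_lt (by fun_prop) continuousAt_const (by simpa using j)).mono
          fun _ => le_of_lt
    obtain ⟨ε, i, j⟩ := Metric.eventually_nhds_iff.1 this
    have := ha.2 (j (y := ε / 2) (by rw [Real.dist_eq, sub_zero, abs_of_pos] <;> linarith))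
      (j (y := -(ε / 2)) (by rw [Real.dist_eq, sub_zero, abs_neg, abs_of_pos] <;> linarith))
      ⟨1 / 2, 1 / 2, by norm_num, by norm_num, by norm_num, by ext; simp; ring⟩
    simpa [i.ne', sub_eq_zero] using this
  obtain ⟨φ, hφ⟩ := (Algebra.linearMap ℚ ℝ).exists_leftInverse_of_injective
    (LinearMap.ker_eq_bot.2 (algebraMap ℚ ℝ).injective)
  have f : {q : Fin s → ℚ | (fun k => (q k : ℝ)) ∈ Pol.extremePoints ℝ}.Finite := by
    refine Finite.of_injOn (f := fun q => V.filter fun v => ∑ k, (q k : ℝ) * v k = 1)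
      (t := V.powerset) (fun q _ => Finset.mem_powerset.2 (Finset.filter_subset _ _))
      (fun q i r _ k => ?_) (Finset.finite_toSet _)
    have := p4 _ i (fun k => r k) fun v l m => by simpa [l, m] using Finset.ext_iff.1 k v
    ext k
    exact_mod_cast (congrFun this k).symm
  refine ⟨f.toFinset, fun x => ⟨fun a i => p1 _ (f.mem_toFinset.1 i).1 x, ?_⟩⟩
  obtain ⟨a, i, j⟩ := p3 x
  let l : StrongDual ℝ (Fin s → ℝ) := ∑ k, x k • ContinuousLinearMap.proj k
  have hl (a) : l a = ∑ k, a k * x k := by simp [l, mul_comm]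
  have ex : IsExposed ℝ Pol (l.toExposed Pol) := ContinuousLinearMap.toExposed.isExposed
  obtain ⟨c, k, m⟩ := cp.exists_isMaxOn ⟨a, i⟩ l.continuous.continuousOn
  obtain ⟨b, n⟩ := (ex.isCompact cp).extremePoints_nonempty ⟨c, k, m⟩
  have o := ex.isExtreme.extremePoints_subset_extremePoints n
  have := p4 b o (fun k => φ (b k)) fun v _ q => by
    have r := congrArg φ q
    have t : φ 1 = 1 := by simpa using LinearMap.congr_fun hφ 1
    simp only [map_sum, t, mul_comm (b _), ← Rat.smul_def, map_smul, smul_eq_mul, mul_comm (v _)] at r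
    exact_mod_cast r
  refine ⟨fun k => φ (b k), f.mem_toFinset.2 (by simpa only [mem_ofPred_eq, this] using o), j.trans ?_⟩
  simpa only [hl, congrFun this] using n.1.2 a i

end Pool.Agent.H.MP_31f6f1_lc
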