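import Pool.Agent.H.MP_31f6f1_lc.A

set_option autoImplicit false

namespace Pool.Agent.H.MP_31f6f1_lc

open List

variable {α β : Type}

def pe (L : List α) : List (α × α) := L.zip L.tail

@[simp] lemma pe_cons (a b : α) (t : List α) : pe (a :: b :: t) = (a, b) :: pe (b :: t) := rfl

@[simp] lemma pe_one (a : α) : pe [a] = [] := rfl

lemma pe_last (a b : α) (A B : List α) :
    pe (a :: A ++ b :: B) = pe (a :: A) ++ (A.getLastD a, b) :: pe (b :: B) := by
  induction A generalizing a with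
  | nil => rfl
  | cons c A ih => simpa [getLast?_cons] using ih c

lemma ed_cons (a : α) (t : List α) : ed (a :: t) = pe (a :: t) ++ [(t.getLastD a, a)] := by
  have (b c : α) : (b :: t).zip (t ++ [c]) = pe (b :: t) ++ [(t.getLastD b, c)] := by
    induction t generalizing b with
    | nil => rfl
    | cons d t ih => simpa [getLast?_cons] using ih d
  simpa [ed] using this a a

lemma ed_rot (A B : List α) : ed (A ++ B) ~ ed (B ++ A) := by
  rcases A with _ | ⟨a, A⟩
  · simp
  rcases B with _ | ⟨b, B⟩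
  · simp
  classical
  rw [cons_append, cons_append, ed_cons, ed_cons, ← cons_append, ← cons_append, pe_last, pe_last]
  simp only [perm_iff_count, count_append, count_cons, getLastD_eq_getLast?, getLast?_append,
    getLast?_cons, Option.getD_some, Option.some_or, count_nil]
  omega

lemma exch (a b c : α) (A B C D : List α) : ∃ R p q r,
    ed (A ++ a :: B ++ b :: C ++ c :: D) ~ (p, a) :: (q, b) :: (r, c) :: R ∧
    ed (A ++ b :: C ++ a :: B ++ c :: D) ~ (r, a) :: (p, b) :: (q, c) :: R := by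
  classical
  have k (a b : α) (B C : List α) : ed (A ++ a :: B ++ b :: C ++ c :: D) ~
      ((D ++ A).getLastD c, a) :: (B.getLastD a, b) :: (C.getLastD b, c) ::
        (pe (a :: B) ++ pe (b :: C) ++ pe (c :: (D ++ A))) := by
    rw [append_assoc, append_assoc]
    refine (ed_rot _ _).trans ?_
    rw [append_assoc, append_assoc, cons_append, ed_cons, ← cons_append, cons_append (as := C), pe_last,
      ← cons_append, cons_append (as := D), pe_last]
    simp only [perm_iff_count, count_append, count_cons, getLastD_eq_getLast?, getLast?_append,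
      getLast?_cons, Option.getD_some, Option.some_or, count_nil]
    omega
  refine ⟨_, _, _, _, k a b B C, (k b a C B).trans ?_⟩
  simp only [perm_iff_count, count_append, count_cons]
  omega

lemma ed_fst (L : List α) : (ed L).map Prod.fst = L := map_fst_zip (by simp)

lemma ed_snd (L : List α) : (ed L).map Prod.snd = L.rotate 1 := map_snd_zip (by simp)

lemma ed_map (f : α → β) (L : List α) : ed (L.map f) = (ed L).map (Prod.map f f) := by
  simp [ed, ← map_rotate, zip_map]

lemma ed_mem {L : List α} {e : α × α} (h : e ∈ ed L) : e.1 ∈ L ∧ e.2 ∈ L :=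
  (of_mem_zip (a := e.1) (b := e.2) h).imp_right mem_rotate.1

lemma fn_ex {L : List ℕ} (h : L.Nodup) : ∃ s p : ℕ → ℕ, (∀ e ∈ ed L, s e.1 = e.2 ∧ p e.2 = e.1) ∧
    ∀ v ∈ L, (p v, v) ∈ ed L := by
  classical
  have k (f : ℕ × ℕ → ℕ) (h : ((ed L).map f).Nodup) : ∃ g : ℕ → ℕ × ℕ, ∀ e ∈ ed L, g (f e) = e :=
    ⟨_, fun _ i => (show Set.InjOn f {e | e ∈ ed L} from fun _ a _ b =>
      inj_on_of_nodup_map h a b).leftInvOn_invFunOn i⟩
  obtain ⟨s, a⟩ := k Prod.fst (by rwa [ed_fst])
  obtain ⟨p, b⟩ := k Prod.snd (by rwa [ed_snd, nodup_rotate])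
  refine ⟨fun x => (s x).2, fun x => (p x).1, fun e i => by simp [a e i, b e i], fun v i => ?_⟩
  obtain ⟨e, j, rfl⟩ := mem_map.1 (show v ∈ (ed L).map Prod.snd by rwa [ed_snd, mem_rotate])
  simpa [b e j] using j

lemma sum_ed {n : ℕ} {L : List ℕ} (h : L ~ range n) (f g : ℕ → ℤ) :
    ((ed L).map fun e => f e.1 - g e.2).sum = ((range n).map fun v => f v - g v).sum := by
  have k {γ : Type} (l : List γ) (f g : γ → ℤ) :
      (l.map fun e => f e - g e).sum = (l.map f).sum - (l.map g).sum := by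
    induction l <;> simp [*]; ring
  rw [k, k, ← (h.map f).sum_eq, ← (((rotate_perm L 1).trans h).map g).sum_eq, ← ed_snd, map_map]
  nth_rw 3 [← ed_fst L]
  rw [map_map]
  rfl

abbrev Cl := (ℕ × ℕ) × ℕ

def cs (t : List Cl) (v : ℕ) : Cl := t.getD v ((0, 0), 0)

/-- label `j` is small -/
abbrev sm (t : List Cl) (j : ℕ) : Prop := ∀ c ∈ t, c.1.1 = j ∨ c.1.2 = j → c.2 < 20

abbrev Con (t : List Cl) (L : List ℕ) : Prop := ∀ e ∈ ed L, (cs t e.1).1.2 = (cs t e.2).1.1

def sw (L : List α) (i : ℕ × ℕ × ℕ) : List α :=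
  L.take i.1 ++ ((L.drop i.1).drop i.2.1).take i.2.2 ++ (L.drop i.1).take i.2.1 ++
    ((L.drop i.1).drop i.2.1).drop i.2.2

lemma sw_perm (L : List α) (i : ℕ × ℕ × ℕ) : sw L i ~ L := by
  classical
  nth_rw 2 [← take_append_drop i.1 L]
  rw [← take_append_drop i.2.1 (L.drop i.1), ← take_append_drop i.2.2 ((L.drop i.1).drop i.2.1)]
  simp only [sw, perm_iff_count, count_append]
  omega

def pot (t : List Cl) (X : List (ℕ × ℕ)) (L : List ℕ) : ℕ :=
  (ed L).countP fun e => ¬ sm t (cs t e.2).1.1 ∧ (e ∈ X ∨ (e.2, e.1) ∈ X)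

def step (t : List Cl) (X : List (ℕ × ℕ)) (L : List ℕ) : List ℕ :=
  (((range L.length ×ˢ range L.length ×ˢ range L.length).map (sw L)).find? fun N =>
    Con t N ∧ (∀ e ∈ ed N, sm t (cs t e.2).1.1 → e ∈ ed L) ∧ pot t X N < pot t X L).getD L

lemma step_perm (t : List Cl) (X : List (ℕ × ℕ)) (L : List ℕ) : step t X L ~ L := by
  unfold step
  rcases h : find? _ _ with _ | N
  · rfl
  · obtain ⟨i, -, rfl⟩ := mem_map.1 (mem_of_find?_eq_some h)
    exact sw_perm _ _

def Gd (t : List Cl) : Prop :=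
  ∀ c ∈ t, c.2 < t.countP (·.1 = c.1) ∧ c.2 ≤ 20 ∧ (c.2 < 20 → t.count c ≤ 1)

lemma map_cs (t : List Cl) : (range t.length).map (cs t) = t :=
  ext_getElem (by simp) fun i a _ => by simp_all [cs]

lemma big {t : List Cl} {L : List ℕ} (g : Gd t) (h : L ~ range t.length) (c : Con t L) {j : ℕ}
    (b : ¬ sm t j) : 10 < (L.filter fun v => (cs t v).1.1 = j).length := by
  simp only [sm, not_forall] at b
  obtain ⟨d, i, k, l⟩ := b
  have := (g d i).1
  have e (p : Cl → Bool) : t.countP p = L.countP (p ∘ cs t) := by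
    rw [h.countP_eq, ← countP_map, map_cs]
  have f : t.countP (·.1.2 = j) = t.countP (·.1.1 = j) := by
    rw [e, e, ← (rotate_perm L 1).countP_eq ((fun x => decide (x.1.1 = j)) ∘ cs t), ← ed_snd,
      ← ed_fst L, countP_map, ed_fst, countP_map]
    exact countP_congr fun x i => by simp [c x i]
  rw [← countP_eq_length_filter]
  have m : t.countP (·.1 = d.1) ≤ t.countP (·.1.1 = j) := by
    rcases k with k | k
    · exact countP_mono_left fun x _ => by simp +contextual [k]
    · exact f ▸ countP_mono_left fun x _ => by simp +contextual [k]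
  exact lt_of_lt_of_le (by omega) (m.trans_eq (e _))

lemma step_ok {t : List Cl} {L M : List ℕ} (g : Gd t) (h : L ~ range t.length) (m : M.Nodup)
    (c : Con t L) : Con t (step t (ed M) L) ∧
      (∀ e ∈ ed (step t (ed M) L), sm t (cs t e.2).1.1 → e ∈ ed L) ∧
      pot t (ed M) (step t (ed M) L) ≤ pot t (ed M) L - 1 := by
  unfold step
  rcases k : find? _ _ with _ | N
  swap
  · have := find?_some k
    simp only [decide_eq_true_eq] at this
    exact ⟨this.1, this.2.1, Nat.le_sub_one_of_lt this.2.2⟩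
  refine ⟨c, fun _ i _ => i, le_of_eq_of_le (by_contra fun z => ?_) (Nat.zero_le _)⟩
  obtain ⟨⟨u, x⟩, i, j⟩ := countP_pos_iff.1 (Nat.pos_of_ne_zero z)
  simp only [decide_eq_true_eq] at j
  have nd : L.Nodup := h.nodup_iff.2 nodup_range
  obtain ⟨s, p, a, b⟩ := fn_ex nd
  obtain ⟨s', p', a', -⟩ := fn_ex m
  have ex (T : List ℕ) (l : T.length ≤ 10) : ∃ y ∈ L, (cs t y).1.1 = (cs t x).1.1 ∧ y ∉ T := by
    by_contra! o
    have := ((nd.filter fun v => (cs t v).1.1 = (cs t x).1.1).subperm (l₂ := T) fun y i => by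
      simp only [mem_filter, decide_eq_true_eq] at i; exact o y i.1 i.2).length_le
    have := big g h c j.1
    omega
  have nc {y z : ℕ} (j : z ∈ L) (k : z ∉ [y, s' (p y), p' (p y), s (s' y), s (p' y)]) :
      ((p y, z) ∉ ed M ∧ (z, p y) ∉ ed M) ∧ (p z, y) ∉ ed M ∧ (y, p z) ∉ ed M := by
    have : s (p z) = z := (a _ (b z j)).1
    simp only [mem_cons, not_or] at k
    refine ⟨⟨fun i => k.2.1 (a' _ i).1.symm, fun i => k.2.2.1 (a' _ i).2.symm⟩,
      fun i => k.2.2.2.2.1 ?_, fun i => k.2.2.2.1 ?_⟩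
    · rw [show p' y = p z from (a' _ i).2, this]
    · rw [show s' y = p z from (a' _ i).1, this]
  have hx := (ed_mem i).2
  obtain ⟨y, y1, y2, y3⟩ := ex [x, s' (p x), p' (p x), s (s' x), s (p' x)] (by simp)
  obtain ⟨z, z1, z2, z3⟩ := ex ([x, s' (p x), p' (p x), s (s' x), s (p' x)] ++
    [y, s' (p y), p' (p y), s (s' y), s (p' y)]) (by simp)
  rw [mem_append, not_or] at z3
  have al : ∀ v ∈ [x, y, z], (cs t v).1.1 = (cs t x).1.1 ∧ ∀ w ∈ [x, y, z], v ≠ w →
      (p v, w) ∉ ed M ∧ (w, p v) ∉ ed M := by simp [nc y1 y3, nc z1 z3.1, nc z1 z3.2, y2, z2]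
  have f : L.filter (· ∈ [x, y, z]) ~ [x, y, z] := by
    simp only [mem_cons, not_or] at y3 z3
    refine (perm_ext_iff_of_nodup (nd.filter _) (by simp; omega)).2 fun w => ?_
    simp only [mem_filter, decide_eq_true_eq, and_iff_right_iff_imp]
    simp only [mem_cons, not_mem_nil, or_false]
    rintro (rfl | rfl | rfl) <;> assumption
  obtain ⟨d, e, o, q⟩ := length_eq_three.1 f.length_eq
  have nq : [d, e, o].Nodup := q ▸ nd.filter _
  rw [q] at f
  obtain ⟨A, B, C, D, rfl⟩ : ∃ A B C D, L = A ++ d :: B ++ e :: C ++ o :: D := by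
    obtain ⟨A, _, rfl, -, -, q⟩ := filter_eq_cons_iff.1 q
    obtain ⟨B, _, rfl, -, -, q⟩ := filter_eq_cons_iff.1 q
    obtain ⟨C, D, rfl, -⟩ := filter_eq_cons_iff.1 q
    exact ⟨A, B, C, D, by simp⟩
  obtain ⟨R, p1, p2, p3, r1, r2⟩ := exch d e o A B C D
  have e1 : p d = p1 := (a (p1, d) (r1.mem_iff.2 (by simp))).2
  have e2 : p e = p2 := (a (p2, e) (r1.mem_iff.2 (by simp))).2
  have e3 : p o = p3 := (a (p3, o) (r1.mem_iff.2 (by simp))).2
  have e4 : p x = u := (a _ i).2
  subst e1 e2 e3 e4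
  have m1 := f.subset (a := d) (by simp)
  have m2 := f.subset (a := e) (by simp)
  have m3 := f.subset (a := o) (by simp)
  have m4 := f.symm.subset (a := x) (by simp)
  have c1 := c (p d, d) (r1.mem_iff.2 (by simp))
  have c2 := c (p e, e) (r1.mem_iff.2 (by simp))
  have c3 := c (p o, o) (r1.mem_iff.2 (by simp))
  have l1 := (al d m1).1
  have l2 := (al e m2).1
  have l3 := (al o m3).1
  simp only [nodup_cons, mem_cons, not_or] at nq
  have n1 := (al o m3).2 d m1 (Ne.symm nq.1.2.1)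
  have n2 := (al d m1).2 e m2 nq.1.1
  have n3 := (al e m2).2 o m3 nq.2.1.1
  simp only at c1 c2 c3 j
  refine find?_eq_none.1 k (A ++ e :: C ++ d :: B ++ o :: D) (mem_map.2
    ⟨(A.length, B.length + 1, C.length + 1), by simp; omega, by simp [sw]⟩) (decide_eq_true ⟨?_, ?_, ?_⟩)
  · intro w hw
    simp only [r2.mem_iff, mem_cons] at hw
    rcases hw with rfl | rfl | rfl | hw
    iterate 3 simp only [c1, c2, c3, l1, l2, l3]
    exact c w (r1.mem_iff.2 (by simp [hw]))
  · intro w hw
    simp only [r2.mem_iff, mem_cons] at hw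
    rcases hw with rfl | rfl | rfl | hw
    iterate 3 simp only [l1, l2, l3, j.1, false_imp_iff]
    exact fun _ => r1.mem_iff.2 (by simp [hw])
  · unfold pot
    rw [r1.countP_eq, r2.countP_eq]
    simp only [countP_cons, decide_eq_true_eq, n1, n2, n3, or_self, and_false, if_false]
    simp only [mem_cons, not_mem_nil, or_false] at m4
    rcases m4 with rfl | rfl | rfl <;> rw [if_pos j] <;> omega

def fix (t : List Cl) (X : List (ℕ × ℕ)) (L : List ℕ) : List ℕ := (step t X)^[L.length] L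

lemma iter_perm (t : List Cl) (X : List (ℕ × ℕ)) (L : List ℕ) (k : ℕ) : (step t X)^[k] L ~ L := by
  induction k with
  | zero => rfl
  | succ k ih => rw [Function.iterate_succ_apply']; exact (step_perm _ _ _).trans ih

lemma fix_ok {t : List Cl} {L M : List ℕ} (g : Gd t) (h : L ~ range t.length) (m : M.Nodup)
    (c : Con t L) : Con t (fix t (ed M) L) ∧ ∀ e ∈ ed (fix t (ed M) L),
      (sm t (cs t e.2).1.1 → e ∈ ed L) ∧ (¬ sm t (cs t e.2).1.1 → e ∉ ed M ∧ e.swap ∉ ed M) := by
  have (k : ℕ) : Con t ((step t (ed M))^[k] L) ∧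
      (∀ e ∈ ed ((step t (ed M))^[k] L), sm t (cs t e.2).1.1 → e ∈ ed L) ∧
      pot t (ed M) ((step t (ed M))^[k] L) ≤ L.length - k := by
    induction k with
    | zero => exact ⟨c, fun _ i _ => i, countP_le_length.trans (by simp [ed])⟩
    | succ k ih =>
      rw [Function.iterate_succ_apply']
      obtain ⟨a, b, d⟩ := step_ok g ((iter_perm _ _ _ k).trans h) m ih.1
      exact ⟨a, fun e i j => ih.2.1 e (b e i j) j, by omega⟩
  obtain ⟨a, b, d⟩ := this L.length
  refine ⟨a, fun e i => ⟨b e i, fun j => ?_⟩⟩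
  have := countP_eq_zero.1 (Nat.le_zero.1 (Nat.sub_self _ ▸ d)) e i
  simp only [decide_eq_true_eq, not_and, not_or] at this
  exact this j

end Pool.Agent.H.MP_31f6f1_lc
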