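import Pool.Agent.H.MP_31f6f1_lc.C

set_option autoImplicit false

namespace Pool.Agent.H.MP_31f6f1_lc

open List

section
variable {σ κ γ : Type} [DecidableEq κ]

def prune (key : σ → κ) (val : σ → ℤ) (L : List σ) : List σ :=
  (L.map key).dedup.filterMap fun k => L.find? fun s => key s = k ∧ ∀ t ∈ L, key t = k → val t ≤ val s

variable {key : σ → κ} {val : σ → ℤ} {L : List σ} {s : σ}

lemma prune_sub (h : s ∈ prune key val L) : s ∈ L :=
  let ⟨_, _, k⟩ := mem_filterMap.1 h; mem_of_find?_eq_some k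

lemma prune_max (h : s ∈ prune key val L) : ∀ t ∈ L, key t = key s → val t ≤ val s := by
  obtain ⟨_, _, k⟩ := mem_filterMap.1 h
  have := find?_some k
  simp only [decide_eq_true_eq] at this
  exact this.1 ▸ this.2

lemma prune_ex (h : s ∈ L) : ∃ t ∈ prune key val L, key t = key s ∧ val s ≤ val t := by
  obtain ⟨u, ⟨a, b⟩, c⟩ := Set.exists_max_image {t | t ∈ L ∧ key t = key s} val
    ((finite_toSet L).subset fun _ => And.left) ⟨s, h, rfl⟩
  obtain ⟨t, k⟩ := Option.isSome_iff_exists.1 ((find?_isSome (xs := L) (p := fun t =>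
    key t = key s ∧ ∀ u ∈ L, key u = key s → val u ≤ val t)).2
      ⟨u, a, decide_eq_true ⟨b, fun v i j => c v ⟨i, j⟩⟩⟩)
  have := find?_some k
  simp only [decide_eq_true_eq] at this
  exact ⟨t, mem_filterMap.2 ⟨_, mem_dedup.2 (mem_map_of_mem h), k⟩, this.1, this.2 s h rfl⟩

lemma prune_len {K : List κ} (h : ∀ s ∈ L, key s ∈ K) : (prune key val L).length ≤ K.length :=
  (length_filterMap_le _ _).trans ((nodup_dedup _).subperm fun k i => by
    obtain ⟨s, j, rfl⟩ := mem_map.1 (mem_dedup.1 i); exact h s j).length_le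

def dp (ext : List γ → List γ) (key : List γ → κ) (val : List γ → ℤ) (k : ℕ) : List (List γ) :=
  (fun L => prune key val (L.flatMap fun s => (ext s).map (· :: s)))^[k] [[]]

variable {ext : List γ → List γ} {key : List γ → κ} {val : List γ → ℤ} {k : ℕ} {s : List γ}

lemma dp_inv (I : List γ → Prop) (a : I []) (b : ∀ s, I s → ∀ x ∈ ext s, I (x :: s))
    (h : s ∈ dp ext key val k) : I s ∧ s.length = k := by
  induction k generalizing s with
  | zero => obtain rfl := mem_singleton.1 h; exact ⟨a, rfl⟩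
  | succ k ih =>
    rw [dp, Function.iterate_succ_apply'] at h
    obtain ⟨t, i, j⟩ := mem_flatMap.1 (prune_sub h)
    obtain ⟨x, l, rfl⟩ := mem_map.1 j
    exact ⟨b t (ih i).1 x l, congrArg (· + 1) (ih i).2⟩

lemma dp_step (h : s ∈ dp ext key val k) {x : γ} (i : x ∈ ext s) :
    ∃ t ∈ dp ext key val (k + 1), key t = key (x :: s) ∧ val (x :: s) ≤ val t := by
  rw [dp, Function.iterate_succ_apply']
  exact prune_ex (mem_flatMap.2 ⟨s, h, mem_map_of_mem i⟩)

lemma dp_len (I : List γ → Prop) (a : I []) (b : ∀ s, I s → ∀ x ∈ ext s, I (x :: s)) {K : List κ}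
    (h : ∀ s, I s → s.length ≤ k → key s ∈ K) : (dp ext key val k).length ≤ K.length + 1 := by
  rcases k with _ | k
  · simp [dp]
  rw [dp, Function.iterate_succ_apply']
  refine (prune_len fun s i => ?_).trans (Nat.le_succ _)
  obtain ⟨t, m, j⟩ := mem_flatMap.1 i
  obtain ⟨x, l, rfl⟩ := mem_map.1 j
  obtain ⟨c, d⟩ := dp_inv I a b m
  exact h _ (b t c x l) (by simp [d])

end

def U (F : ℕ) : List Cl := (range F ×ˢ range F) ×ˢ range 21

def nx (t : List Cl) (x : ℕ × ℕ) : Cl := (x, min 20 (t.countP (·.1 = x)))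

def keyA (F : ℕ) (t : List Cl) : List (ℕ × ℕ × ℕ) :=
  (U F).map fun c => (t.count c, t.idxOf c, t.countP (·.1 = c.1))

def vl (w : List (List ℤ)) (t : List Cl) : ℤ :=
  (zipWith (fun c r => r.getD c.1.2 0 - r.getD c.1.1 0) t (w.drop (w.length - t.length))).sum

def dA (F : ℕ) (w : List (List ℤ)) (k : ℕ) : List (List Cl) :=
  dp (fun t => (range F ×ˢ range F).map (nx t)) (keyA F) (vl w) k

def IA (F : ℕ) (t : List Cl) : Prop := Gd t ∧ ∀ c ∈ t, c ∈ U F

lemma ia_nil (F : ℕ) : IA F [] := ⟨by simp [Gd], by simp⟩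

lemma ia_cons {F : ℕ} (t : List Cl) (h : IA F t) (c : Cl) (i : c ∈ (range F ×ˢ range F).map (nx t)) :
    IA F (c :: t) := by
  obtain ⟨x, m, rfl⟩ := mem_map.1 i
  refine ⟨fun c j => ?_, forall_mem_cons.2 ⟨by simp [U, nx, m, Nat.lt_succ_iff], h.2⟩⟩
  have k := h.1 (nx t x)
  have l := h.1 c
  rw [← count_pos_iff] at k l
  rw [← count_pos_iff] at j
  simp only [count_cons, countP_cons, beq_iff_eq, decide_eq_true_eq] at j ⊢
  by_cases e : nx t x = c
  · subst e
    have e1 : (nx t x).1 = x := rfl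
    have e2 : (nx t x).2 = min 20 (t.countP (·.1 = x)) := rfl
    simp only [e1, if_true] at k ⊢
    omega
  · simp only [e, if_false] at j ⊢; omega

lemma simA {F : ℕ} (w : List (List ℤ)) (r : List (ℕ × ℕ)) (a : ∀ x ∈ r, x ∈ range F ×ˢ range F)
    (b : r.length ≤ w.length) : ∃ t, t.map Prod.fst = r ∧ IA F t ∧ ∃ u ∈ dA F w r.length,
      keyA F u = keyA F t ∧ vl w t ≤ vl w u := by
  induction r with
  | nil => exact ⟨[], rfl, ia_nil F, [], by simp [dA, dp], rfl, le_rfl⟩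
  | cons x r ih =>
    rw [forall_mem_cons] at a
    rw [length_cons] at b
    obtain ⟨t, rfl, i, u, j, k, l⟩ := ih a.2 (by omega)
    have lu := (dp_inv _ (ia_nil F) ia_cons j).2
    obtain ⟨v, m, o, q⟩ := dp_step j (mem_map_of_mem (f := nx u) a.1)
    simp only [keyA, map_inj_left, Prod.mk.injEq] at k
    have e : nx u x = nx t x := by rw [nx, nx, (k (x, 0) (by simp [U, a.1])).2.2]
    refine ⟨nx t x :: t, rfl, ia_cons t i _ (mem_map_of_mem a.1), v, m, o.trans ?_, le_trans ?_ q⟩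
    · simp only [keyA, map_inj_left, e, count_cons, countP_cons, idxOf_cons]
      intro c i
      rw [(k c i).1, (k c i).2.1, (k c i).2.2]
    · rw [length_map] at b lu
      unfold vl at l ⊢
      rw [length_cons, length_cons, lu, drop_eq_getElem_cons (by omega), e,
        show w.length - (t.length + 1) + 1 = w.length - t.length by omega]
      simpa [lu] using l

def keyB (F : ℕ) (a : List Cl) : Option Cl × Option Cl × List ℕ × List ℕ :=
  (a.head?, a.getLast?, (U F).map (a.count ·), (U F ×ˢ U F).map ((pe a).count ·))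

def dB (F : ℕ) (t : List Cl) (k : ℕ) : List (List ℕ) :=
  dp (fun s => (range t.length).filter (· ∉ s)) (fun s => keyB F (s.map (cs t))) (fun _ => 0) k

def IB (n : ℕ) (s : List ℕ) : Prop := s.Nodup ∧ ∀ v ∈ s, v < n

lemma ib_cons {n : ℕ} (s : List ℕ) (h : IB n s) (v : ℕ) (i : v ∈ (range n).filter (· ∉ s)) :
    IB n (v :: s) := by
  simp only [mem_filter, mem_range, decide_eq_true_eq] at i
  exact ⟨nodup_cons.2 ⟨i.2, h.1⟩, forall_mem_cons.2 ⟨i.1, h.2⟩⟩

def Eqv (a b : List Cl) : Prop := a.head? = b.head? ∧ a.getLast? = b.getLast? ∧ a ~ b ∧ pe a ~ pe b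

lemma perm_of {γ : Type} [DecidableEq γ] [BEq γ] [LawfulBEq γ] {K a b : List γ} (i : ∀ c ∈ a, c ∈ K) (j : ∀ c ∈ b, c ∈ K)
    (h : ∀ c ∈ K, a.count c = b.count c) : a ~ b :=
  perm_iff_count.2 fun c => by
    by_cases k : c ∈ K
    · exact h c k
    · rw [count_eq_zero.2 (mt (i c) k), count_eq_zero.2 (mt (j c) k)]

lemma eqv_of {F : ℕ} {a b : List Cl} (i : ∀ c ∈ a, c ∈ U F) (j : ∀ c ∈ b, c ∈ U F)
    (h : keyB F a = keyB F b) : Eqv a b := by
  simp only [keyB, Prod.mk.injEq, map_inj_left] at h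
  have k {a : List Cl} (i : ∀ c ∈ a, c ∈ U F) : ∀ e ∈ pe a, e ∈ U F ×ˢ U F := fun e l =>
    mem_product.2 ((of_mem_zip l).imp (i _) fun m => i _ (mem_of_mem_tail m))
  exact ⟨h.1, h.2.1, perm_of i j h.2.2.1, perm_of (k i) (k j) h.2.2.2⟩

lemma Eqv.cons {a b : List Cl} (h : Eqv a b) (c : Cl) : Eqv (c :: a) (c :: b) := by
  obtain ⟨i, j, k, l⟩ := h
  refine ⟨rfl, by rw [getLast?_cons, getLast?_cons, j], k.cons c, ?_⟩
  rcases a with _ | ⟨x, a⟩ <;> rcases b with _ | ⟨y, b⟩ <;> simp_all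

lemma Eqv.ed {a b : List Cl} (h : Eqv a b) : ed a ~ ed b := by
  obtain ⟨i, j, k, l⟩ := h
  rcases a with _ | ⟨x, a⟩ <;> rcases b with _ | ⟨y, b⟩ <;> simp_all [ed_cons, getLast?_cons, perm_append_right_iff]

lemma cs_mem {t : List Cl} {v : ℕ} (h : v < t.length) : cs t v ∈ t := by simp [cs, h]

lemma simB {F : ℕ} {t u : List Cl} (a : ∀ c ∈ u, c ∈ U F) (p : t ~ u) (s : List ℕ)
    (h : IB t.length s) : ∃ r ∈ dB F u s.length, Eqv (r.map (cs u)) (s.map (cs t)) := by
  induction s with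
  | nil => exact ⟨[], by simp [dB, dp], rfl, rfl, .refl _, .refl _⟩
  | cons v s ih =>
    obtain ⟨r, i, j⟩ := ih ⟨h.1.of_cons, fun _ k => h.2 _ (mem_cons_of_mem _ k)⟩
    obtain ⟨y, k, l⟩ : ∃ y ∈ (range u.length).filter (· ∉ r), cs u y = cs t v := by
      by_contra! o
      obtain ⟨z, z1, z2⟩ := h.1.subperm (l₂ := range t.length) fun _ k => mem_range.2 (h.2 _ k)
      have b := (z2.map (cs t)).count_le (cs t v)
      rw [(z1.map _).count_eq] at b
      have c := ((nodup_range.filter (cs u · == cs t v)).subperm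
        (l₂ := r.filter (cs u · == cs t v)) fun y k => by
          simp only [mem_filter, beq_iff_eq, decide_eq_true_eq] at k o ⊢
          exact ⟨by_contra fun m => o y ⟨k.1, m⟩ k.2, k.2⟩).length_le
      have d := j.2.2.1.count_eq (cs t v)
      rw [map_cs, p.count_eq, ← map_cs u, map_cons, count_cons_self, ← d] at b
      simp only [count, countP_map, Function.comp_def] at b
      simp only [← countP_eq_length_filter] at c
      omega
    obtain ⟨q, m, o, -⟩ := dp_step i k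
    have f {s : List ℕ} (h : IB u.length s) : ∀ c ∈ s.map (cs u), c ∈ U F :=
      forall_mem_map.2 fun v i => a _ (cs_mem (h.2 v i))
    have e := eqv_of (f (dp_inv (IB _) ⟨nodup_nil, by simp⟩ ib_cons m).1)
      (f (ib_cons r (dp_inv (IB _) ⟨nodup_nil, by simp⟩ ib_cons i).1 y k)) o
    have g := j.cons (cs t v)
    rw [map_cons, l] at e
    exact ⟨q, m, e.1.trans g.1, e.2.1.trans g.2.1, e.2.2.1.trans g.2.2.1, e.2.2.2.trans g.2.2.2⟩

lemma idx1 {t : List Cl} {v : ℕ} (h : v < t.length) (c : t.count (cs t v) ≤ 1) :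
    t.idxOf (cs t v) = v := by
  induction t generalizing v with
  | nil => simp at h
  | cons a t ih =>
    rcases v with _ | v
    · simp [cs]
    have e : cs (a :: t) (v + 1) = cs t v := rfl
    have l : v < t.length := by simpa using h
    have := count_pos_iff.2 (cs_mem l)
    rw [e, count_cons] at c
    have k : ¬ (a == cs t v) := fun k => by rw [if_pos k] at c; omega
    rw [e, idxOf_cons, Bool.eq_false_iff.2 k, cond_false, ih l (by omega)]

def W (w : List (List ℤ)) (v j : ℕ) : ℤ := (w.getD v []).getD j 0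

lemma vl_eq {w : List (List ℤ)} {t : List Cl} {L : List ℕ} (h : t.length = w.length)
    (p : L ~ range w.length) :
    vl w t = ((ed L).map fun e => W w e.1 (cs t e.1).1.2 - W w e.2 (cs t e.2).1.1).sum := by
  rw [sum_ed p (fun v => W w v (cs t v).1.2) fun v => W w v (cs t v).1.1, vl]
  congr 1
  exact ext_getElem (by simp [h]) fun i a b => by
    have : i < w.length := by simpa using b
    simp [W, cs, h, this]

def cand (F : ℕ) (w : List (List ℤ)) : List (List Cl × List ℕ) :=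
  ((dA F w w.length).flatMap fun t => (dB F t t.length).map fun s => (t, s)).filter fun p => Con p.1 p.2

lemma cand_ok {F : ℕ} {w : List (List ℤ)} {p : List Cl × List ℕ} (h : p ∈ cand F w) :
    IA F p.1 ∧ p.1.length = w.length ∧ p.2 ~ range w.length ∧ Con p.1 p.2 := by
  simp only [cand, mem_filter, mem_flatMap, mem_map, decide_eq_true_eq] at h
  obtain ⟨⟨t, a, s, b, rfl⟩, c⟩ := h
  obtain ⟨i, j⟩ := dp_inv _ (ia_nil F) ia_cons a
  obtain ⟨k, l⟩ := dp_inv (IB _) ⟨nodup_nil, by simp⟩ ib_cons b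
  exact ⟨i, j, (k.1.subperm fun v m => mem_range.2 (j ▸ k.2 v m)).perm_of_length_le (by simp [l, j]), c⟩

lemma cand_ex {F : ℕ} {w : List (List ℤ)} {L : List ℕ} (h : L ~ range w.length) (f : ℕ × ℕ → ℕ)
    (hf : ∀ e, f e < F) : ∃ p ∈ cand F w, ((ed L).map fun e => W w e.1 (f e) - W w e.2 (f e)).sum ≤
      vl w p.1 ∧ ∀ e ∈ ed p.2, sm p.1 (cs p.1 e.2).1.1 → e ∈ ed L := by
  have nd : L.Nodup := h.nodup_iff.2 nodup_range
  obtain ⟨s, p, a, -⟩ := fn_ex nd
  obtain ⟨t, b, c, u, d, e, g⟩ := simA (F := F) w ((range w.length).map fun v => (f (p v, v), f (v, s v)))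
    (by simp [hf]) (by simp)
  have lt : t.length = w.length := by simpa using congrArg length b
  have ct (v : ℕ) (i : v ∈ L) : (cs t v).1 = (f (p v, v), f (v, s v)) := by
    have j := mem_range.1 (h.subset i)
    simpa [cs, j, lt] using congrArg (·[v]?) b
  have c1 (e : ℕ × ℕ) (i : e ∈ ed L) : (cs t e.1).1.2 = f e ∧ (cs t e.2).1.1 = f e := by
    rw [ct _ (ed_mem i).1, ct _ (ed_mem i).2, (a e i).1, (a e i).2]; exact ⟨rfl, rfl⟩
  rw [length_map, length_range] at d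
  obtain ⟨i, lu⟩ := dp_inv _ (ia_nil F) ia_cons d
  simp only [keyA, map_inj_left, Prod.mk.injEq] at e
  obtain ⟨r, j, k⟩ := simB i.2 (perm_of c.2 i.2 fun x m => (e x m).1.symm) L
    ⟨nd, fun v m => lt ▸ mem_range.1 (h.subset m)⟩
  rw [h.length_eq, length_range, ← lu] at j
  have ir := (dp_inv (IB _) ⟨nodup_nil, by simp⟩ ib_cons j).1.2
  have m (x : ℕ × ℕ) (o : x ∈ ed r) : ∃ y ∈ ed L, cs t y.1 = cs u x.1 ∧ cs t y.2 = cs u x.2 := by
    have := k.ed.subset (a := Prod.map (cs u) (cs u) x) (by rw [ed_map]; exact mem_map_of_mem o)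
    rw [ed_map] at this
    exact (mem_map.1 this).imp fun y q => ⟨q.1, Prod.ext_iff.1 q.2⟩
  have cr : Con u r := fun x o => by
    obtain ⟨y, q, v, z⟩ := m x o
    rw [← v, ← z, (c1 y q).1, (c1 y q).2]
  refine ⟨(u, r), mem_filter.2 ⟨mem_flatMap.2 ⟨u, d, mem_map_of_mem j⟩, decide_eq_true cr⟩,
    le_of_eq_of_le ?_ g, fun x o z => ?_⟩
  · rw [vl_eq lt h]
    exact congrArg _ (map_congr_left fun x o => by rw [(c1 x o).1, (c1 x o).2])
  · obtain ⟨y, q, v⟩ := m x o
    have id {x y : ℕ} (a : x ∈ r) (b : y ∈ L) (d : cs t y = cs u x) (f : (cs u x).2 < 20) : x = y := by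
      have l : y < t.length := lt ▸ mem_range.1 (h.subset b)
      rw [← idx1 (ir x a) ((i.1 _ (cs_mem (ir x a))).2.2 f), (e _ (i.2 _ (cs_mem (ir x a)))).2.1, ← d,
        idx1 l ((c.1 _ (cs_mem l)).2.2 (d ▸ f))]
    have := ed_mem o
    rwa [Prod.ext (id this.1 (ed_mem q).1 v.1 (z _ (cs_mem (ir _ this.1)) (.inr (cr x o))))
      (id this.2 (ed_mem q).2 v.2 (z _ (cs_mem (ir _ this.2)) (.inl rfl)))]

def pick (F : ℕ) (w : List (List ℤ)) : List ((List Cl × List ℕ) × List Cl × List ℕ) :=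
  prune (fun _ => 0) (fun p => vl w p.1.1 + vl w p.2.1) ((cand F w ×ˢ cand F w).filter fun p =>
    ∀ e ∈ ed p.1.2, sm p.1.1 (cs p.1.1 e.2).1.1 → ∀ f ∈ ed p.2.2, sm p.2.1 (cs p.2.1 f.2).1.1 →
      f ≠ e ∧ f ≠ (e.2, e.1))

def out (p : (List Cl × List ℕ) × List Cl × List ℕ) : List ℕ × List ℕ :=
  (fix p.1.1 (ed p.2.2) p.1.2, fix p.2.1 (ed (fix p.1.1 (ed p.2.2) p.1.2)) p.2.2)

def alg (F : ℕ) (w : List (List ℤ)) : List ℕ × List ℕ := out ((pick F w).headD (([], []), [], []))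

theorem core {F : ℕ} {w : List (List ℤ)} {d : ℕ → ℕ → ℝ}
    (h1 : ∀ u v, ∃ j < F, d u v ≤ (W w u j - W w v j : ℤ))
    (h2 : ∀ u v, ∀ j < F, (W w u j - W w v j : ℤ) ≤ d u v) {L M : List ℕ} (h : Feas w.length L M) :
    Feas w.length (alg F w).1 (alg F w).2 ∧ len d L + len d M ≤ len d (alg F w).1 + len d (alg F w).2 := by
  choose f hf h1 using h1
  obtain ⟨p, a, b, c⟩ := cand_ex h.1 (fun e => f e.1 e.2) fun _ => hf _ _
  obtain ⟨q, a', b', c'⟩ := cand_ex h.2.1 (fun e => f e.1 e.2) fun _ => hf _ _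
  have lo (L : List ℕ) : len d L ≤ (((ed L).map fun e => W w e.1 (f e.1 e.2) - W w e.2 (f e.1 e.2)).sum : ℤ) := by
    rw [Int.cast_list_sum, map_map]
    exact sum_le_sum fun e _ => h1 _ _
  have hi {p : List Cl × List ℕ} (a : p ∈ cand F w) {L : List ℕ} (l : L ~ range w.length)
      (c : Con p.1 L) : vl w p.1 ≤ len d L := by
    obtain ⟨i, j, -⟩ := cand_ok a
    rw [vl_eq j l, Int.cast_list_sum, map_map]
    refine sum_le_sum fun e k => ?_
    have := i.2 _ (cs_mem (j ▸ mem_range.1 (l.subset (ed_mem k).2)))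
    rw [Function.comp, c e k]
    exact h2 _ _ _ (mem_range.1 (mem_product.1 (mem_product.1 this).1).1)
  have m : (p, q) ∈ (cand F w ×ˢ cand F w).filter fun p => ∀ e ∈ ed p.1.2, sm p.1.1 (cs p.1.1 e.2).1.1 →
      ∀ f ∈ ed p.2.2, sm p.2.1 (cs p.2.1 f.2).1.1 → f ≠ e ∧ f ≠ (e.2, e.1) :=
    mem_filter.2 ⟨mem_product.2 ⟨a, a'⟩, decide_eq_true fun e i j g k l =>
      ⟨fun o => (h.2.2 e (c e i j)).1 (o ▸ c' g k l), fun o => (h.2.2 e (c e i j)).2 (o ▸ c' g k l :)⟩⟩
  obtain ⟨x, hx⟩ : ∃ x ∈ pick F w, alg F w = out x := by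
    obtain ⟨x, i, -⟩ := prune_ex (key := fun _ => 0) (val := fun p => vl w p.1.1 + vl w p.2.1) m
    unfold alg
    rcases e : pick F w with _ | ⟨y, t⟩
    · exact absurd (e ▸ i : x ∈ []) not_mem_nil
    · exact ⟨y, mem_cons_self, rfl⟩
  have mx := prune_max hx.1 _ m rfl
  obtain ⟨i, j⟩ := mem_filter.1 (prune_sub hx.1)
  obtain ⟨x, y⟩ := x
  obtain ⟨i, k⟩ := mem_product.1 i
  obtain ⟨x1, x2, x3, x4⟩ := cand_ok i
  obtain ⟨y1, y2, y3, y4⟩ := cand_ok k
  have pL := (iter_perm x.1 (ed y.2) x.2 x.2.length).trans x3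
  have pM := (iter_perm y.1 (ed (fix x.1 (ed y.2) x.2)) y.2 y.2.length).trans y3
  obtain ⟨l1, l2⟩ := fix_ok x1.1 (x2 ▸ x3) (y3.nodup_iff.2 nodup_range) x4
  obtain ⟨m1, m2⟩ := fix_ok y1.1 (y2 ▸ y3) (pL.nodup_iff.2 nodup_range) y4
  simp only [decide_eq_true_eq] at j
  rw [hx.2]
  refine ⟨⟨pL, pM, fun e o => ?_⟩, ?_⟩
  · have z (g : ℕ × ℕ) (r : g ∈ ed (fix y.1 (ed (fix x.1 (ed y.2) x.2)) y.2)) : g ≠ e ∧ g ≠ e.swap := by
      by_cases s : sm y.1 (cs y.1 g.2).1.1
      · by_cases t : sm x.1 (cs x.1 e.2).1.1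
        · exact j e ((l2 e o).1 t) t g ((m2 g r).1 s) s
        · exact ⟨fun v => ((l2 e o).2 t).1 (v ▸ (m2 g r).1 s), fun v => ((l2 e o).2 t).2 (v ▸ (m2 g r).1 s)⟩
      · exact ⟨fun v => ((m2 g r).2 s).1 (v ▸ o), fun v => ((m2 g r).2 s).2 (v ▸ o)⟩
    exact ⟨fun r => (z _ r).1 rfl, fun r => (z _ r).2 rfl⟩
  · refine (add_le_add (lo L) (lo M)).trans (le_trans ?_ (add_le_add (hi i pL l1) (hi k pM m1)))
    exact_mod_cast (add_le_add b b').trans mx

end Pool.Agent.H.MP_31f6f1_lc
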