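import Pool.Agent.H.MP_31f6f1_lc.B
import Pool.Agent.H.MP_31f6f1_lc.D
import Pool.Agent.Lib.helper29.CXQ

set_option autoImplicit false

namespace Pool.Agent.H.MP_31f6f1_lc

open List Pool.Agent.Lib.CX Pool.Agent.Lib.helper29.CXQ

def allL {γ : Type} (Z : List γ) : ℕ → List (List γ)
  | 0 => [[]]
  | k + 1 => (Z ×ˢ allL Z k).map fun p => p.1 :: p.2

lemma mem_allL {γ : Type} {Z l : List γ} (h : ∀ x ∈ l, x ∈ Z) : l ∈ allL Z l.length := by
  induction l with
  | nil => simp [allL]
  | cons x l ih =>
    rw [forall_mem_cons] at h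
    exact mem_map.2 ⟨(x, l), mem_product.2 ⟨h.1, ih h.2⟩, rfl⟩

lemma len_allL {γ : Type} (Z : List γ) (k : ℕ) : (allL Z k).length = Z.length ^ k := by
  induction k with
  | zero => rfl
  | succ k ih => simp [allL, length_product, ih, pow_succ']

variable {α σ κ γ : Type} [Enc α] [Enc σ] [Enc κ] [Enc γ] [DecidableEq κ]

@[fun_prop] lemma pt_prune {key : α → σ → κ} {val : α → σ → ℤ} {L : α → List σ}
    (a : PT fun p : α × σ => key p.1 p.2) (b : PT fun p : α × σ => val p.1 p.2) (c : PT L) :
    PT fun x => prune (key x) (val x) (L x) := by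
  unfold prune; fun_prop

lemma pt_dp {ext : α → List γ → List γ} {key : α → List γ → κ} {val : α → List γ → ℤ}
    {n N S : α → ℕ} (a : PT fun p : α × List γ => ext p.1 p.2)
    (b : PT fun p : α × List γ => key p.1 p.2) (c : PT fun p : α × List γ => val p.1 p.2)
    (hn : PT n) (hb : PB n) (hN : PB N) (hS : PB S)
    (h : ∀ x, ∀ k ≤ n x, (dp (ext x) (key x) (val x) k).length ≤ N x ∧
      ∀ s ∈ dp (ext x) (key x) (val x) k, ∀ y ∈ s, size y ≤ S x) :
    PT fun x => dp (ext x) (key x) (val x) (n x) :=
  PT.iterate (B := fun x => N x * (n x * (S x + 1) + 2 + 1) + 2) (by fun_prop) (by fun_prop) hn hb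
    (by fun_prop) fun x k i => (size_list_le (B := n x * (S x + 1) + 2) fun s j =>
      (size_list_le ((h x k i).2 s j)).trans (by
        rw [(dp_inv (fun _ => True) trivial (fun _ _ _ _ => trivial) j).2]; gcongr)).trans
      (by gcongr; exact (h x k i).1)

@[fun_prop] lemma pt_ed {L : α → List γ} (a : PT L) : PT fun x => ed (L x) :=
  PT.congr (g := fun x => (L x).zip ((L x).tail ++ (L x).take 1)) (by fun_prop) fun x => by
    cases L x <;> simp [ed]

@[fun_prop] lemma pt_pe {L : α → List γ} (a : PT L) : PT fun x => pe (L x) := by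
  unfold pe; fun_prop

@[fun_prop] lemma pt_cs {t : α → List Cl} {v : α → ℕ} (a : PT t) (b : PT v) :
    PT fun x => cs (t x) (v x) := by
  unfold cs; fun_prop

@[fun_prop] lemma pt_vl {w : α → List (List ℤ)} {t : α → List Cl} (a : PT w) (b : PT t) :
    PT fun x => vl (w x) (t x) := by
  unfold vl; fun_prop

@[fun_prop] lemma pt_sw {L : α → List γ} {i : α → ℕ × ℕ × ℕ} (a : PT L) (b : PT i) :
    PT fun x => sw (L x) (i x) := by
  unfold sw; fun_prop

attribute [local irreducible] ed pe cs vl sw prune U

@[fun_prop] lemma pt_pot {t : α → List Cl} {X : α → List (ℕ × ℕ)} {L : α → List ℕ} (a : PT t)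
    (b : PT X) (c : PT L) : PT fun x => pot (t x) (X x) (L x) := by
  unfold pot sm; fun_prop

attribute [local irreducible] pot

@[fun_prop] lemma pt_step {t : α → List Cl} {X : α → List (ℕ × ℕ)} {L : α → List ℕ} (a : PT t)
    (b : PT X) (c : PT L) : PT fun x => step (t x) (X x) (L x) := by
  unfold step Con sm; fun_prop

lemma size_perm {l m : List γ} (h : l ~ m) : size l = size m := by
  induction h <;> simp_all; omega

@[fun_prop] lemma pt_fix {t : α → List Cl} {X : α → List (ℕ × ℕ)} {L : α → List ℕ} (a : PT t)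
    (b : PT X) (c : PT L) : PT fun x => fix (t x) (X x) (L x) :=
  PT.iterate (B := fun x => size (L x)) (by fun_prop) c (by fun_prop) (by fun_prop) (by fun_prop)
    fun _ _ _ => (size_perm (iter_perm _ _ _ _)).le

@[fun_prop] lemma pt_dA (F : ℕ) : PT fun w => dA F w w.length := by
  refine pt_dp (N := fun w => ((w.length + 1) ^ 3) ^ (U F).length + 1) (S := fun _ => size (U F))
    (by unfold nx; fun_prop) (by unfold keyA; fun_prop) (by fun_prop) (by fun_prop) (by fun_prop)
    (by fun_prop) (by fun_prop) fun w k i => ⟨?_, fun s j y l =>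
      size_mem ((dp_inv _ (ia_nil F) ia_cons j).1.2 y l)⟩
  refine (dp_len (fun _ => True) trivial (fun _ _ _ _ => trivial) (K := allL (range (w.length + 1) ×ˢ
    range (w.length + 1) ×ˢ range (w.length + 1)) (U F).length) fun s _ j => ?_).trans_eq ?_
  · rw [← length_map (as := U F)]
    refine mem_allL (forall_mem_map.2 fun c _ => ?_)
    have := count_le_length (a := c) (l := s)
    have := idxOf_le_length (a := c) (l := s)
    have := countP_le_length (p := (·.1 = c.1)) (l := s)
    simp only [mem_product, mem_range]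
    omega
  · simp [len_allL, length_product, pow_succ, mul_assoc]

@[fun_prop] lemma pt_dB (F : ℕ) : PT fun t => dB F t t.length := by
  refine pt_dp (N := fun t => (t.length + 1) * ((t.length + 1) * ((t.length + 1) ^ (U F).length *
    (t.length + 1) ^ (U F ×ˢ U F).length)) + 1) (S := fun t => 3 * t.length + 2)
    (by fun_prop) (by unfold keyB; fun_prop) (by fun_prop) (by fun_prop) (by fun_prop)
    (by fun_prop) (by fun_prop) fun t k i => ⟨?_, fun s j y l => (size_nat_le y).trans (by
      have := (dp_inv (IB _) ⟨nodup_nil, by simp⟩ ib_cons j).1.2 y l; omega)⟩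
  refine (dp_len (IB _) ⟨nodup_nil, by simp⟩ ib_cons (K := (none :: t.map some) ×ˢ (none :: t.map some) ×ˢ
    allL (range (t.length + 1)) (U F).length ×ˢ allL (range (t.length + 1)) (U F ×ˢ U F).length)
    fun s h j => ?_).trans_eq (by simp [len_allL, length_product]; ring)
  have e {o : Option Cl} (k : ∀ c ∈ o, c ∈ s.map (cs t)) : o ∈ none :: t.map some := by
    rcases o with _ | c
    · exact mem_cons_self
    · obtain ⟨v, a, rfl⟩ := mem_map.1 (k c rfl)
      exact mem_cons_of_mem _ (mem_map_of_mem (cs_mem (h.2 v a)))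
  refine mem_product.2 ⟨e fun _ => mem_of_mem_head?, mem_product.2 ⟨e fun _ => mem_of_mem_getLast?,
    mem_product.2 ⟨?_, ?_⟩⟩⟩
  · rw [← length_map (as := U F)]
    refine mem_allL (forall_mem_map.2 fun c _ => mem_range.2 (count_le_length.trans_lt ?_))
    simp; omega
  · rw [← length_map (as := U F ×ˢ U F)]
    refine mem_allL (forall_mem_map.2 fun c _ => mem_range.2 (count_le_length.trans_lt ?_))
    unfold pe
    simp; omega

attribute [local irreducible] dA dB fix

lemma pt_cand (F : ℕ) : PT (cand F) := by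
  have a := pt_dA F
  have b : PT fun p : List (List ℤ) × List Cl => dB F p.2 p.2.length := (pt_dB F).comp PT.snd'
  refine PT.filter (F := fun _ p => decide (Con p.1 p.2)) (by unfold Con; fun_prop)
    (PT.flatMap (F := fun _ t => (dB F t t.length).map fun s => (t, s))
      (PT.map (F := fun p s => (p.2, s)) (by fun_prop) b) a)

lemma pt_alg (F : ℕ) : PT (alg F) := by
  have := pt_cand F
  unfold alg out pick sm
  fun_prop

def dn (P : List (List ℚ)) : ℕ := (P.flatten.map Rat.den).prod

def sc (P : List (List ℚ)) (v k : ℕ) : ℤ :=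
  ((P.getD v []).getD k 0).num * (dn P / ((P.getD v []).getD k 0).den : ℕ)

lemma dn_pos (P : List (List ℚ)) : 0 < dn P :=
  prod_pos (forall_mem_map.2 fun q _ => q.den_pos)

lemma sc_eq (P : List (List ℚ)) (v k : ℕ) : (sc P v k : ℝ) = dn P * ((P.getD v []).getD k 0 : ℚ) := by
  unfold sc
  generalize h : (P.getD v []).getD k 0 = q
  have : q.den ∣ dn P := by
    by_cases i : v < P.length
    · by_cases j : k < (P.getD v []).length
      · exact dvd_prod (mem_map_of_mem (mem_flatten.2 ⟨P.getD v [], by simp [i], h ▸ by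
          rw [getD_eq_getElem _ _ j]; exact getElem_mem _⟩))
      · rw [← h, getD_eq_default _ _ (not_lt.1 j)]; simp
    · rw [← h, getD_eq_default _ _ (not_lt.1 i)]; simp
  rw [Int.cast_mul, Int.cast_natCast, Nat.cast_div this (by simp), Rat.cast_def]
  ring

def wm (s : ℕ) (A P : List (List ℚ)) : List (List ℤ) :=
  (range P.length).map fun v => (range A.length).map fun j =>
    ((range s).map fun k => sc A j k * sc P v k).sum

lemma pt_wm (s : ℕ) (A : List (List ℚ)) : PT (wm s A) := by
  unfold wm sc dn; fun_prop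

theorem main {s : ℕ} (V : Finset (Fin s → ℚ)) {B : Set (Fin s → ℝ)}
    (hB : B = convexHull ℝ ((fun (v : Fin s → ℚ) k => (v k : ℝ)) '' V)) (h : 0 ∈ interior B) :
    ∃ f : List (List ℚ) → List ℕ × List ℕ, PT f ∧ ∀ P L M, Feas P.length L M →
      Feas P.length (f P).1 (f P).2 ∧
      len (fun u v => gauge B (pt s P u - pt s P v)) L + len (fun u v => gauge B (pt s P u - pt s P v)) M ≤
        len (fun u v => gauge B (pt s P u - pt s P v)) (f P).1 +
          len (fun u v => gauge B (pt s P u - pt s P v)) (f P).2 := by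
  obtain ⟨A, hA⟩ := poly V hB h
  let Z := A.toList.map ofFn
  refine ⟨fun P => alg Z.length (wm s Z P), (pt_alg _).comp (pt_wm s Z), fun P L M k => ?_⟩
  have c : (0 : ℝ) < dn Z * dn P := by have := dn_pos Z; have := dn_pos P; positivity
  have lz : Z.length = A.toList.length := length_map _
  have e (v j : ℕ) (i : j < A.toList.length) : (W (wm s Z P) v j : ℝ) =
      dn Z * dn P * ∑ k, (A.toList[j] k : ℝ) * pt s P v k := by
    by_cases l : v < P.length
    · have : W (wm s Z P) v j = ∑ k ∈ Finset.range s, sc Z j k * sc P v k := by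
        simp [W, wm, l, lz, show j < A.card by simpa using i, ← List.sum_toFinset, nodup_range,
          toFinset_range]
      rw [this, Finset.sum_range, Finset.mul_sum]
      push_cast
      refine Finset.sum_congr rfl fun k _ => ?_
      rw [sc_eq, sc_eq]
      simp [Z, getElem?_eq_getElem i, pt]
      ring
    · simp [W, wm, l, pt]
  have := core (F := Z.length) (w := wm s Z P) (L := L) (M := M)
    (d := fun u v => dn Z * dn P * gauge B (pt s P u - pt s P v)) (fun u v => ?_) (fun u v j i => ?_)
    (by simpa [wm] using k)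
  · simp only [len, sum_map_mul_left, ← mul_add] at this
    exact ⟨by simpa [wm] using this.1, le_of_mul_le_mul_left this.2 c⟩
  · obtain ⟨a, i, j⟩ := (hA (pt s P u - pt s P v)).2
    obtain ⟨x, l, rfl⟩ := getElem_of_mem (Finset.mem_toList.2 i)
    refine ⟨x, lz ▸ l, ?_⟩
    rw [Int.cast_sub, e u x l, e v x l, ← mul_sub, ← Finset.sum_sub_distrib]
    simpa only [Pi.sub_apply, mul_sub] using mul_le_mul_of_nonneg_left j c.le
  · rw [lz] at i
    rw [Int.cast_sub, e u j i, e v j i, ← mul_sub, ← Finset.sum_sub_distrib]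
    simpa only [Pi.sub_apply, mul_sub] using mul_le_mul_of_nonneg_left
      ((hA (pt s P u - pt s P v)).1 _ (Finset.mem_toList.1 (getElem_mem i))) c.le

end Pool.Agent.H.MP_31f6f1_lc
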